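import Pool.Agent.H23.Assembly

/-!
# Smooth Fano fibrations with K-semistable total space need not have K-semistable fibres

The blow-up `X` of `P³` in two disjoint lines is a projective bundle over `P¹ × P¹`. It is
K-semistable, and every fibre of the smooth morphism `X ⟶ P¹` is the blow-up of the plane in
a point, which is not K-semistable.
-/

open AlgebraicGeometry CategoryTheory Pool.Agent.H23.Fano

/-- There are Fano varieties `X` (of dimension three) and `Y` (of dimension one) over `ℂ` and
a smooth morphism `f : X ⟶ Y` such that `X` is K-semistable and every fibre of `f` over a closed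
point of `Y` is a Fano surface that is not K-semistable. -/
theorem Pool.Agent.Results.MP_b3209a_ag.UnstableFibres.result :
    ∃ (X : FanoVariety 3) (Y : FanoVariety 1) (f : X.X ⟶ Y.X),
      f ≫ Y.str = X.str ∧ Smooth f ∧ X.KSemistable ∧
      ∀ y : Spec (.of ℂ) ⟶ Y.X, y ≫ Y.str = 𝟙 _ →
        ∃ (F : FanoVariety 2) (i : F.X ⟶ X.X), IsPullback i F.str f y ∧ ¬ F.KSemistable :=
  Pool.Agent.H23.exists_counterexample
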